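import Pool.Agent.TH424.LPSuff

set_option autoImplicit false

/-!
# The class of lattice path matroids is definable in monadic second-order logic

There is a sentence of the logic `MS₀` which holds in a finite matroid exactly when the matroid is
a lattice path matroid.

The sentence says: in every connected component `K` (a minimal nonempty set such that every circuit
is inside it or disjoint from it) there are elements `a`, `b` such that, for the flats `F` of `M|K`
spanned by the circuits inside `K`,

* a flat containing both `a` and `b` is `K`;
* the flats containing `a` form a chain, so do those containing `b`, and if `F` contains `a` and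
  `F'` contains `b` then `F ∩ F' = ∅` or `F ∪ F' = K`;
* a flat containing neither `a` nor `b` is the intersection of a flat `F₁` containing `a` and a flat
  `F₂` containing `b` such that `F₁ ∪ F₂ = K` and `F₁`, `F₂` is a modular pair.
-/

namespace Pool.Agent.Results.MP_b5ca43_co.MSODefinable

open Pool.Agent.TH424

universe u

/-- **The class of lattice path matroids is characterised by a sentence of `MS₀`.** -/
theorem result : ∃ φ : MSFormula, φ.IsSentence ∧
    ∀ {α : Type u} (M : Matroid α), M.Finite → (φ.Holds M ↔ IsLatticePathMatroid M) := by
  refine ⟨lpmSentence, isSentence_lpmSentence, ?_⟩
  intro α M hM
  rw [holds_lpmSentence]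
  constructor
  · intro h; exact isLatticePathMatroid_of_good h
  · intro h
    obtain ⟨D⟩ := lpData_of_isLatticePathMatroid h
    exact D.good

end Pool.Agent.Results.MP_b5ca43_co.MSODefinable
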